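import Pool.Agent.X170.Tame.Interp

/-!
# An affine algebraic manifold with a tame set and a transitive group of regular automorphisms
which is not algebraically flexible

The manifold is the two-dimensional torus `(ℂ \ {0})²`, embedded in `ℂ⁴` by
`x₀ x₁ = 1, x₂ x₃ = 1`.
-/

set_option autoImplicit false

open Set Topology Filter Complex

namespace Pool.Agent.Results.MP_acc6f5_ag.TorusNotFlexible

/-! ### Definitions -/

/-- `X ⊆ ℂᴺ` is a (connected) affine algebraic manifold: it is connected, it is the set of common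
zeros of a set of polynomials, and every point of `X` has a neighbourhood in which `X` is the set of
common zeros of finitely many polynomials whose gradients at the point are linearly independent. -/
def IsAffineManifold {N : ℕ} (X : Set (Fin N → ℂ)) : Prop :=
  IsConnected X ∧
  (∃ S : Set (MvPolynomial (Fin N) ℂ), X = {x | ∀ P ∈ S, MvPolynomial.eval x P = 0}) ∧
  ∀ x ∈ X, ∃ (m : ℕ) (P : Fin m → MvPolynomial (Fin N) ℂ) (U : Set (Fin N → ℂ)),
    IsOpen U ∧ x ∈ U ∧ (∀ y ∈ U, y ∈ X ↔ ∀ i, MvPolynomial.eval y (P i) = 0) ∧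
    LinearIndependent ℂ
      (fun i => (fun j => MvPolynomial.eval x (MvPolynomial.pderiv j (P i)) : Fin N → ℂ))

/-- `F` is given by polynomials. -/
def IsPolyMap {N : ℕ} (F : (Fin N → ℂ) → (Fin N → ℂ)) : Prop :=
  ∃ P : Fin N → MvPolynomial (Fin N) ℂ, ∀ x i, F x i = MvPolynomial.eval x (P i)

/-- `F` restricts to a regular automorphism of `X`. -/
def IsRegularAut {N : ℕ} (X : Set (Fin N → ℂ)) (F : (Fin N → ℂ) → (Fin N → ℂ)) : Prop :=
  IsPolyMap F ∧ MapsTo F X X ∧ ∃ G : (Fin N → ℂ) → (Fin N → ℂ), IsPolyMap G ∧ MapsTo G X X ∧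
    LeftInvOn G F X ∧ RightInvOn G F X

/-- `F` is holomorphic on `X`: near every point of `X` it agrees on `X` with a holomorphic map
defined on an open subset of `ℂᴺ`. -/
def IsHolomorphicOn {N : ℕ} (X : Set (Fin N → ℂ)) (F : (Fin N → ℂ) → (Fin N → ℂ)) : Prop :=
  ∀ x ∈ X, ∃ (U : Set (Fin N → ℂ)) (H : (Fin N → ℂ) → (Fin N → ℂ)), IsOpen U ∧ x ∈ U ∧
    DifferentiableOn ℂ H U ∧ ∀ y ∈ U ∩ X, F y = H y

/-- `F` restricts to a holomorphic automorphism of `X`. -/
def IsHolomorphicAut {N : ℕ} (X : Set (Fin N → ℂ)) (F : (Fin N → ℂ) → (Fin N → ℂ)) : Prop :=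
  IsHolomorphicOn X F ∧ MapsTo F X X ∧ ∃ G : (Fin N → ℂ) → (Fin N → ℂ), IsHolomorphicOn X G ∧
    MapsTo G X X ∧ LeftInvOn G F X ∧ RightInvOn G F X

/-- `A` is a tame set in `X`: an infinite subset of `X` without accumulation points in `X` such that
every injective map `A → A` is the restriction of a holomorphic automorphism of `X`. -/
structure IsTame {N : ℕ} (X A : Set (Fin N → ℂ)) : Prop where
  subset : A ⊆ X
  infinite : A.Infinite
  discrete : ∀ x ∈ X, ¬ AccPt x (𝓟 A)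
  extend : ∀ f : (Fin N → ℂ) → (Fin N → ℂ), MapsTo f A A → InjOn f A →
    ∃ F, IsHolomorphicAut X F ∧ ∀ a ∈ A, F a = f a

/-- The group of regular automorphisms acts transitively on `X`. -/
def RegularTransitive {N : ℕ} (X : Set (Fin N → ℂ)) : Prop :=
  ∀ x ∈ X, ∀ y ∈ X, ∃ F, IsRegularAut X F ∧ F x = y

/-- The map `x ↦ Φ(t, x)` for `N` polynomials `Φ` in the variables `t` (`none`) and `x` (`some j`). -/
noncomputable def act {N : ℕ} (Φ : Fin N → MvPolynomial (Option (Fin N)) ℂ) (t : ℂ)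
    (x : Fin N → ℂ) : Fin N → ℂ :=
  fun i => MvPolynomial.eval (fun o => Option.elim o t x) (Φ i)

/-- `Φ` defines a regular action of the additive group `(ℂ, +)` on `X`. -/
structure IsGaAction {N : ℕ} (X : Set (Fin N → ℂ))
    (Φ : Fin N → MvPolynomial (Option (Fin N)) ℂ) : Prop where
  maps : ∀ t, ∀ x ∈ X, act Φ t x ∈ X
  zero : ∀ x ∈ X, act Φ 0 x = x
  add : ∀ s t, ∀ x ∈ X, act Φ (s + t) x = act Φ s (act Φ t x)

/-- The tangent vector at `x` of the orbit of `x`. -/
noncomputable def velocity {N : ℕ} (Φ : Fin N → MvPolynomial (Option (Fin N)) ℂ)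
    (x : Fin N → ℂ) : Fin N → ℂ :=
  fun i => deriv (fun t => act Φ t x i) 0

/-- `v` is in the tangent space `T_x X`: the derivative at `x` in the direction `v` of every
polynomial vanishing on `X` is zero. -/
def IsTangent {N : ℕ} (X : Set (Fin N → ℂ)) (x v : Fin N → ℂ) : Prop :=
  ∀ P : MvPolynomial (Fin N) ℂ, (∀ y ∈ X, MvPolynomial.eval y P = 0) →
    ∑ j, MvPolynomial.eval x (MvPolynomial.pderiv j P) * v j = 0

/-- `X` is algebraically flexible: at every point `x` of `X`, every tangent vector is in the span of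
the tangent vectors at `x` of the orbits of the regular actions of `(ℂ, +)` on `X`. -/
def IsFlexible {N : ℕ} (X : Set (Fin N → ℂ)) : Prop :=
  ∀ x ∈ X, ∀ v, IsTangent X x v →
    v ∈ Submodule.span ℂ {w | ∃ Φ, IsGaAction X Φ ∧ velocity Φ x = w}

/-! ### The torus -/

/-- the torus -/
def T : Set (Fin 4 → ℂ) := {x | x 0 * x 1 = 1 ∧ x 2 * x 3 = 1}

/-- the parametrisation of the torus -/
noncomputable def par (p : ℂ × ℂ) : Fin 4 → ℂ := ![exp p.1, exp (-p.1), exp p.2, exp (-p.2)]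

theorem par_mem (p : ℂ × ℂ) : par p ∈ T := by
  constructor
  · show exp p.1 * exp (-p.1) = 1
    rw [← exp_add, add_neg_cancel, exp_zero]
  · show exp p.2 * exp (-p.2) = 1
    rw [← exp_add, add_neg_cancel, exp_zero]

theorem ne0 {x : Fin 4 → ℂ} (h : x ∈ T) : x 0 ≠ 0 := left_ne_zero_of_mul_eq_one h.1
theorem ne2 {x : Fin 4 → ℂ} (h : x ∈ T) : x 2 ≠ 0 := left_ne_zero_of_mul_eq_one h.2
theorem eq1 {x : Fin 4 → ℂ} (h : x ∈ T) : x 1 = (x 0)⁻¹ := (inv_eq_of_mul_eq_one_right h.1).symm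
theorem eq3 {x : Fin 4 → ℂ} (h : x ∈ T) : x 3 = (x 2)⁻¹ := (inv_eq_of_mul_eq_one_right h.2).symm

theorem T_ext {x y : Fin 4 → ℂ} (hx : x ∈ T) (hy : y ∈ T) (h0 : x 0 = y 0) (h2 : x 2 = y 2) :
    x = y := by
  funext i
  fin_cases i
  · exact h0
  · show x 1 = y 1
    rw [eq1 hx, eq1 hy, h0]
  · exact h2
  · show x 3 = y 3
    rw [eq3 hx, eq3 hy, h2]

theorem range_par : range par = T := by
  apply Subset.antisymm
  · rintro _ ⟨p, rfl⟩
    exact par_mem p
  · intro x hx
    refine ⟨(log (x 0), log (x 2)), T_ext (par_mem _) hx ?_ ?_⟩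
    · exact exp_log (ne0 hx)
    · exact exp_log (ne2 hx)

theorem connected_T : IsConnected T := by
  rw [← range_par]
  refine isConnected_range ?_
  refine continuous_pi fun i => ?_
  fin_cases i
  · exact continuous_exp.comp continuous_fst
  · exact continuous_exp.comp continuous_fst.neg
  · exact continuous_exp.comp continuous_snd
  · exact continuous_exp.comp continuous_snd.neg

/-- the two equations of the torus -/
noncomputable def eqs : Fin 2 → MvPolynomial (Fin 4) ℂ :=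
  ![MvPolynomial.X 0 * MvPolynomial.X 1 - 1, MvPolynomial.X 2 * MvPolynomial.X 3 - 1]

theorem mem_T_iff (y : Fin 4 → ℂ) : y ∈ T ↔ ∀ i, MvPolynomial.eval y (eqs i) = 0 := by
  rw [Fin.forall_fin_two]
  simp only [eqs, T, mem_ofPred_eq, Matrix.cons_val_zero, Matrix.cons_val_one, map_sub, map_mul,
    MvPolynomial.eval_X, map_one, sub_eq_zero]

theorem affine_T : IsAffineManifold T := by
  refine ⟨connected_T, ⟨range eqs, ?_⟩, fun x hx => ⟨2, eqs, univ, isOpen_univ, mem_univ x,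
    fun y _ => mem_T_iff y, ?_⟩⟩
  · ext y
    refine (mem_T_iff y).trans ⟨?_, fun h i => h _ (mem_range_self i)⟩
    rintro h _ ⟨i, rfl⟩
    exact h i
  · rw [Fintype.linearIndependent_iff]
    intro g h
    have h1 := congrFun h 1
    have h3 := congrFun h 3
    simp [eqs, MvPolynomial.pderiv_X, Fin.sum_univ_two] at h1 h3
    rw [Fin.forall_fin_two]
    exact ⟨h1.resolve_right (ne0 hx), h3.resolve_right (ne2 hx)⟩

theorem transitive_T : RegularTransitive T := by
  have key : ∀ a b c d : ℂ, IsPolyMap (fun z : Fin 4 → ℂ => ![a * z 0, b * z 1, c * z 2, d * z 3]) := by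
    intro a b c d
    refine ⟨![MvPolynomial.C a * MvPolynomial.X 0, MvPolynomial.C b * MvPolynomial.X 1,
      MvPolynomial.C c * MvPolynomial.X 2, MvPolynomial.C d * MvPolynomial.X 3], fun x i => ?_⟩
    fin_cases i <;> simp
  have maps : ∀ a b c d : ℂ, a * b = 1 → c * d = 1 →
      MapsTo (fun z : Fin 4 → ℂ => ![a * z 0, b * z 1, c * z 2, d * z 3]) T T := by
    intro a b c d hab hcd z hz
    constructor
    · show (a * z 0) * (b * z 1) = 1
      rw [mul_mul_mul_comm, hab, hz.1, one_mul]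
    · show (c * z 2) * (d * z 3) = 1
      rw [mul_mul_mul_comm, hcd, hz.2, one_mul]
  intro x hx y hy
  have h1 : (y 0 * x 1) * (y 1 * x 0) = 1 := by
    rw [mul_mul_mul_comm, hy.1, mul_comm (x 1), hx.1, one_mul]
  have h2 : (y 2 * x 3) * (y 3 * x 2) = 1 := by
    rw [mul_mul_mul_comm, hy.2, mul_comm (x 3), hx.2, one_mul]
  refine ⟨fun z => ![(y 0 * x 1) * z 0, (y 1 * x 0) * z 1, (y 2 * x 3) * z 2, (y 3 * x 2) * z 3],
    ⟨key _ _ _ _, maps _ _ _ _ h1 h2,
    fun z => ![(y 1 * x 0) * z 0, (y 0 * x 1) * z 1, (y 3 * x 2) * z 2, (y 2 * x 3) * z 3],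
    key _ _ _ _, maps _ _ _ _ (by rw [mul_comm]; exact h1) (by rw [mul_comm]; exact h2), ?_, ?_⟩, ?_⟩
  · intro z hz
    funext i
    fin_cases i
    · show (y 1 * x 0) * ((y 0 * x 1) * z 0) = z 0
      rw [← mul_assoc, mul_comm (y 1 * x 0), h1, one_mul]
    · show (y 0 * x 1) * ((y 1 * x 0) * z 1) = z 1
      rw [← mul_assoc, h1, one_mul]
    · show (y 3 * x 2) * ((y 2 * x 3) * z 2) = z 2
      rw [← mul_assoc, mul_comm (y 3 * x 2), h2, one_mul]
    · show (y 2 * x 3) * ((y 3 * x 2) * z 3) = z 3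
      rw [← mul_assoc, h2, one_mul]
  · intro z hz
    funext i
    fin_cases i
    · show (y 0 * x 1) * ((y 1 * x 0) * z 0) = z 0
      rw [← mul_assoc, h1, one_mul]
    · show (y 1 * x 0) * ((y 0 * x 1) * z 1) = z 1
      rw [← mul_assoc, mul_comm (y 1 * x 0), h1, one_mul]
    · show (y 2 * x 3) * ((y 3 * x 2) * z 2) = z 2
      rw [← mul_assoc, h2, one_mul]
    · show (y 3 * x 2) * ((y 2 * x 3) * z 3) = z 3
      rw [← mul_assoc, mul_comm (y 3 * x 2), h2, one_mul]
  · funext i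
    fin_cases i
    · show (y 0 * x 1) * x 0 = y 0
      rw [mul_assoc, mul_comm (x 1), hx.1, mul_one]
    · show (y 1 * x 0) * x 1 = y 1
      rw [mul_assoc, hx.1, mul_one]
    · show (y 2 * x 3) * x 2 = y 2
      rw [mul_assoc, mul_comm (x 3), hx.2, mul_one]
    · show (y 3 * x 2) * x 3 = y 3
      rw [mul_assoc, hx.2, mul_one]

/-! ### No actions of the additive group -/

theorem exists_poly {N : ℕ} (Φ : Fin N → MvPolynomial (Option (Fin N)) ℂ) (x : Fin N → ℂ)
    (i : Fin N) : ∃ p : Polynomial ℂ, ∀ t, act Φ t x i = p.eval t := by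
  refine ⟨MvPolynomial.eval₂ Polynomial.C (fun o => Option.elim o Polynomial.X
    (fun j => Polynomial.C (x j))) (Φ i), fun t => ?_⟩
  unfold act
  induction Φ i using MvPolynomial.induction_on with
  | C a => simp
  | add p q hp hq => simp only [map_add, MvPolynomial.eval₂_add, Polynomial.eval_add, hp, hq]
  | mul_X p n hp =>
    simp only [map_mul, MvPolynomial.eval_X, MvPolynomial.eval₂_mul, MvPolynomial.eval₂_X,
      Polynomial.eval_mul, hp]
    cases n <;> simp

theorem act_const {f g : ℂ → ℂ} (hf : ∃ p : Polynomial ℂ, ∀ t, f t = p.eval t)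
    (hg : ∃ p : Polynomial ℂ, ∀ t, g t = p.eval t) (h : ∀ t, f t * g t = 1) (t : ℂ) :
    f t = f 0 := by
  obtain ⟨p, hp⟩ := hf
  obtain ⟨q, hq⟩ := hg
  have h1 : p * q = 1 := by
    apply Polynomial.funext
    intro r
    rw [Polynomial.eval_mul, ← hp, ← hq, h, Polynomial.eval_one]
  obtain ⟨c, -, hc⟩ := Polynomial.isUnit_iff.1 (IsUnit.of_mul_eq_one _ h1)
  rw [hp, hp, ← hc, Polynomial.eval_C, Polynomial.eval_C]

theorem velocity_zero {Φ : Fin 4 → MvPolynomial (Option (Fin 4)) ℂ} (h : IsGaAction T Φ)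
    {x : Fin 4 → ℂ} (hx : x ∈ T) : (∀ t, act Φ t x = x) ∧ velocity Φ x = 0 := by
  have e : ∀ t, act Φ t x = x := by
    intro t
    have e0 : act Φ t x 0 = act Φ 0 x 0 :=
      act_const (f := fun t => act Φ t x 0) (g := fun t => act Φ t x 1) (exists_poly Φ x 0)
        (exists_poly Φ x 1) (fun t => (h.maps t x hx).1) t
    have e2 : act Φ t x 2 = act Φ 0 x 2 :=
      act_const (f := fun t => act Φ t x 2) (g := fun t => act Φ t x 3) (exists_poly Φ x 2)
        (exists_poly Φ x 3) (fun t => (h.maps t x hx).2) t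
    rw [h.zero x hx] at e0 e2
    exact T_ext (h.maps t x hx) hx e0 e2
  refine ⟨e, ?_⟩
  funext i
  unfold velocity
  simp only [e, deriv_const, Pi.zero_apply]

theorem hasDerivAt_par (P : MvPolynomial (Fin 4) ℂ) :
    HasDerivAt (fun s : ℂ => MvPolynomial.eval (par (s, 0)) P)
      (∑ j, MvPolynomial.eval (par (0, 0)) (MvPolynomial.pderiv j P) *
        (![1, -1, 0, 0] : Fin 4 → ℂ) j) 0 := by
  induction P using MvPolynomial.induction_on with
  | C a =>
    simp only [MvPolynomial.eval_C, MvPolynomial.pderiv_C, map_zero, zero_mul, Finset.sum_const_zero]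
    exact hasDerivAt_const _ _
  | add p q hp hq =>
    have := hp.add hq
    simp only [map_add]
    refine this.congr_deriv ?_
    rw [← Finset.sum_add_distrib]
    exact Finset.sum_congr rfl fun j _ => by ring
  | mul_X p n hp =>
    have hX : HasDerivAt (fun s : ℂ => par (s, 0) n) ((![1, -1, 0, 0] : Fin 4 → ℂ) n) 0 := by
      fin_cases n
      · show HasDerivAt (fun s : ℂ => exp s) 1 0
        have := hasDerivAt_exp (0 : ℂ)
        rwa [exp_zero] at this
      · show HasDerivAt (fun s : ℂ => exp (-s)) (-1) 0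
        have := ((hasDerivAt_id (0 : ℂ)).neg).cexp
        simpa using this
      · show HasDerivAt (fun s : ℂ => exp 0) 0 0
        exact hasDerivAt_const _ _
      · show HasDerivAt (fun s : ℂ => exp (-0)) 0 0
        exact hasDerivAt_const _ _
    have h1 := hp.mul hX
    have e1 : (fun s : ℂ => MvPolynomial.eval (par (s, 0)) (p * MvPolynomial.X n)) =
        (fun s : ℂ => MvPolynomial.eval (par (s, 0)) p * par (s, 0) n) := by
      funext s
      rw [map_mul, MvPolynomial.eval_X]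
    rw [e1]
    refine h1.congr_deriv ?_
    rw [Finset.sum_mul]
    have e2 : MvPolynomial.eval (par (0, 0)) p * (![1, -1, 0, 0] : Fin 4 → ℂ) n =
        ∑ j, MvPolynomial.eval (par (0, 0)) p * (if j = n then 1 else 0) *
          (![1, -1, 0, 0] : Fin 4 → ℂ) j := by
      rw [Finset.sum_eq_single n]
      · simp
      · intro j _ hj
        simp [hj]
      · intro h
        exact absurd (Finset.mem_univ n) h
    rw [e2, ← Finset.sum_add_distrib]
    refine Finset.sum_congr rfl fun j _ => ?_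
    rw [MvPolynomial.pderiv_mul, MvPolynomial.pderiv_X, map_add, map_mul, map_mul,
      MvPolynomial.eval_X, Pi.single_apply]
    by_cases hj : n = j
    · subst hj
      simp
      ring
    · have hj' : ¬ j = n := fun h => hj h.symm
      simp [hj, hj']
      ring

theorem not_flexible_T : ¬ IsFlexible T := by
  intro h
  have h0 := h (par (0, 0)) (par_mem _) ![1, -1, 0, 0] (fun P hP => by
    have h1 := hasDerivAt_par P
    have h2 : (fun s : ℂ => MvPolynomial.eval (par (s, 0)) P) = fun _ => 0 :=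
      funext fun s => hP _ (par_mem _)
    rw [h2] at h1
    exact h1.unique (hasDerivAt_const _ _))
  have h1 : Submodule.span ℂ {w | ∃ Φ, IsGaAction T Φ ∧ velocity Φ (par (0, 0)) = w} ≤ ⊥ := by
    rw [Submodule.span_le]
    rintro _ ⟨Φ, hΦ, rfl⟩
    exact (velocity_zero hΦ (par_mem _)).2
  have h2 := congrFun ((Submodule.mem_bot ℂ).1 (h1 h0)) 0
  exact one_ne_zero (α := ℂ) h2

/-! ### A tame set -/

theorem IsHolomorphicAut.comp {N : ℕ} {X : Set (Fin N → ℂ)} {F F' : (Fin N → ℂ) → (Fin N → ℂ)}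
    (h : IsHolomorphicAut X F) (h' : IsHolomorphicAut X F') : IsHolomorphicAut X (F' ∘ F) := by
  have key : ∀ {F F' : (Fin N → ℂ) → (Fin N → ℂ)}, IsHolomorphicOn X F → MapsTo F X X →
      IsHolomorphicOn X F' → IsHolomorphicOn X (F' ∘ F) := by
    intro F F' h hm h' x hx
    obtain ⟨U, H, hU, hxU, hd, he⟩ := h x hx
    obtain ⟨U', H', hU', hxU', hd', he'⟩ := h' (F x) (hm hx)
    have hHx : H x = F x := (he x ⟨hxU, hx⟩).symm
    refine ⟨U ∩ H ⁻¹' U', H' ∘ H, hd.continuousOn.isOpen_inter_preimage hU hU', ⟨hxU, ?_⟩,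
      hd'.comp (hd.mono inter_subset_left) (fun y hy => hy.2), ?_⟩
    · show H x ∈ U'
      rw [hHx]
      exact hxU'
    · rintro y ⟨⟨hy1, hy2⟩, hyX⟩
      have e : F y = H y := he y ⟨hy1, hyX⟩
      have hy2' : F y ∈ U' := by rw [e]; exact hy2
      show F' (F y) = H' (H y)
      rw [he' (F y) ⟨hy2', hm hyX⟩, e]
  obtain ⟨hd, hm, G, hGd, hGm, hl, hr⟩ := h
  obtain ⟨hd', hm', G', hGd', hGm', hl', hr'⟩ := h'
  refine ⟨key hd hm hd', hm'.comp hm, G ∘ G', key hGd' hGm' hGd, hGm.comp hGm', ?_, ?_⟩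
  · intro x hx
    show G (G' (F' (F x))) = x
    rw [hl' (hm hx), hl hx]
  · intro x hx
    show F' (F (G (G' x))) = x
    rw [hr (hGm' hx), hr' hx]

theorem aut_of {F G : (Fin 4 → ℂ) → (Fin 4 → ℂ)} (hF : Differentiable ℂ F)
    (hG : Differentiable ℂ G) (hFm : MapsTo F T T) (hGm : MapsTo G T T)
    (h1 : ∀ x ∈ T, G (F x) 0 = x 0 ∧ G (F x) 2 = x 2)
    (h2 : ∀ x ∈ T, F (G x) 0 = x 0 ∧ F (G x) 2 = x 2) : IsHolomorphicAut T F :=
  ⟨fun x _ => ⟨univ, F, isOpen_univ, mem_univ x, hF.differentiableOn, fun _ _ => rfl⟩, hFm, G,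
    fun x _ => ⟨univ, G, isOpen_univ, mem_univ x, hG.differentiableOn, fun _ _ => rfl⟩, hGm,
    fun x hx => T_ext (hGm (hFm hx)) hx (h1 x hx).1 (h1 x hx).2,
    fun x hx => T_ext (hFm (hGm hx)) hx (h2 x hx).1 (h2 x hx).2⟩

/-- the shears of the first factor -/
noncomputable def sh (g : ℂ → ℂ) (z : Fin 4 → ℂ) : Fin 4 → ℂ :=
  ![z 0 * exp (g (z 2)), z 1 * exp (-g (z 2)), z 2, z 3]

/-- the exchange of the two factors -/
def sw (z : Fin 4 → ℂ) : Fin 4 → ℂ := ![z 2, z 3, z 0, z 1]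

theorem exp_mul_exp_neg (a : ℂ) : exp a * exp (-a) = 1 := by
  rw [← exp_add, add_neg_cancel, exp_zero]

theorem sh_maps (g : ℂ → ℂ) : MapsTo (sh g) T T := by
  intro z hz
  constructor
  · show (z 0 * exp (g (z 2))) * (z 1 * exp (-g (z 2))) = 1
    rw [mul_mul_mul_comm, hz.1, exp_mul_exp_neg, one_mul]
  · exact hz.2

theorem sh_diff {g : ℂ → ℂ} (hg : Differentiable ℂ g) : Differentiable ℂ (sh g) := by
  rw [differentiable_pi]
  intro i
  have h : ∀ j : Fin 4, Differentiable ℂ (fun z : Fin 4 → ℂ => z j) := fun j =>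
    differentiable_pi.1 differentiable_id j
  fin_cases i
  · exact (h 0).mul (hg.comp (h 2)).cexp
  · exact (h 1).mul (hg.comp (h 2)).neg.cexp
  · exact h 2
  · exact h 3

theorem aut_sh {g : ℂ → ℂ} (hg : Differentiable ℂ g) : IsHolomorphicAut T (sh g) := by
  refine aut_of (G := sh (fun z => -g z)) (sh_diff hg) (sh_diff hg.neg) (sh_maps g) (sh_maps _)
    ?_ ?_
  · intro x _
    refine ⟨?_, rfl⟩
    show x 0 * exp (g (x 2)) * exp (-g (x 2)) = x 0
    rw [mul_assoc, exp_mul_exp_neg, mul_one]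
  · intro x _
    refine ⟨?_, rfl⟩
    show x 0 * exp (-g (x 2)) * exp (g (x 2)) = x 0
    rw [mul_assoc, mul_comm (exp _), exp_mul_exp_neg, mul_one]

theorem aut_sw : IsHolomorphicAut T sw := by
  have hd : Differentiable ℂ sw := by
    rw [differentiable_pi]
    intro i
    have h : ∀ j : Fin 4, Differentiable ℂ (fun z : Fin 4 → ℂ => z j) := fun j =>
      differentiable_pi.1 differentiable_id j
    fin_cases i
    · exact h 2
    · exact h 3
    · exact h 0
    · exact h 1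
  have hm : MapsTo sw T T := fun z hz => ⟨hz.2, hz.1⟩
  exact aut_of hd hd hm hm (fun _ _ => ⟨rfl, rfl⟩) (fun _ _ => ⟨rfl, rfl⟩)

/-- the points `(1, n + 1)` of the torus -/
noncomputable def pt (n : ℕ) : Fin 4 → ℂ := ![1, 1, ((n + 1 : ℕ) : ℂ), ((n + 1 : ℕ) : ℂ)⁻¹]

theorem cast_ne (n : ℕ) : ((n + 1 : ℕ) : ℂ) ≠ 0 := by exact_mod_cast n.succ_ne_zero

theorem pt_mem (n : ℕ) : pt n ∈ T := by
  constructor
  · show (1 : ℂ) * 1 = 1
    exact one_mul 1
  · show ((n + 1 : ℕ) : ℂ) * ((n + 1 : ℕ) : ℂ)⁻¹ = 1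
    exact mul_inv_cancel₀ (cast_ne n)

theorem pt_inj : Function.Injective pt := by
  intro m n h
  have h1 : ((m + 1 : ℕ) : ℂ) = ((n + 1 : ℕ) : ℂ) := congrFun h 2
  have h2 : m + 1 = n + 1 := by exact_mod_cast h1
  omega

theorem one_le_dist {m n : ℕ} (h : m ≠ n) : 1 ≤ dist (pt m) (pt n) := by
  refine le_trans ?_ (dist_le_pi_dist (pt m) (pt n) 2)
  show 1 ≤ dist ((m + 1 : ℕ) : ℂ) ((n + 1 : ℕ) : ℂ)
  rw [dist_eq_norm]
  have e : ((m + 1 : ℕ) : ℂ) - ((n + 1 : ℕ) : ℂ) = ((((m : ℤ) - (n : ℤ) : ℤ) : ℝ) : ℂ) := by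
    push_cast
    ring
  rw [e, Complex.norm_real, Real.norm_eq_abs, ← Int.cast_abs]
  have : (m : ℤ) - n ≠ 0 := by omega
  exact_mod_cast Int.one_le_abs this

theorem tame_pt : IsTame T (range pt) where
  subset := by
    rintro _ ⟨n, rfl⟩
    exact pt_mem n
  infinite := Set.infinite_range_of_injective pt_inj
  discrete := by
    intro x _ hx
    rw [accPt_iff_nhds] at hx
    obtain ⟨y, ⟨hy1, m, rfl⟩, hy2⟩ := hx (Metric.ball x (1 / 2)) (Metric.ball_mem_nhds _ (by norm_num))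
    have hpos : 0 < dist (pt m) x := dist_pos.2 hy2
    obtain ⟨z, ⟨hz1, n, rfl⟩, hz2⟩ := hx (Metric.ball x (min (1 / 2) (dist (pt m) x)))
      (Metric.ball_mem_nhds _ (lt_min (by norm_num) hpos))
    have h1 : dist (pt n) x < 1 / 2 := (Metric.mem_ball.1 hz1).trans_le (min_le_left _ _)
    have h2 : dist (pt n) x < dist (pt m) x := (Metric.mem_ball.1 hz1).trans_le (min_le_right _ _)
    have h3 : dist (pt m) (pt n) < 1 := by
      have := dist_triangle_right (pt m) (pt n) x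
      have h4 := Metric.mem_ball.1 hy1
      linarith
    have h4 : m = n := by
      by_contra hne
      exact absurd (one_le_dist hne) (not_le.2 h3)
    subst h4
    exact lt_irrefl _ h2
  extend := by
    intro f hmaps hinj
    have h1 : ∀ n : ℕ, ∃ m : ℕ, pt m = f (pt n) := fun n => hmaps (mem_range_self n)
    choose s hs using h1
    have hsinj : Function.Injective s := by
      intro m n h
      apply pt_inj
      apply hinj (mem_range_self m) (mem_range_self n)
      rw [← hs, ← hs, h]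
    obtain ⟨g, hg, hgn⟩ := Pool.Agent.X170.Tame.exists_entire_interp
      fun m => log ((s (m - 1) + 1 : ℕ) : ℂ)
    obtain ⟨k, hk, hkn⟩ := Pool.Agent.X170.Tame.exists_entire_interp
      fun m : ℕ => -log ((Function.invFun s (m - 1) + 1 : ℕ) : ℂ)
    have hg' : ∀ n : ℕ, exp (g ((n + 1 : ℕ) : ℂ)) = ((s n + 1 : ℕ) : ℂ) := by
      intro n
      rw [hgn, Nat.add_sub_cancel, exp_log (cast_ne _)]
    have hk' : ∀ n : ℕ, ((n + 1 : ℕ) : ℂ) * exp (k ((s n + 1 : ℕ) : ℂ)) = 1 := by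
      intro n
      rw [hkn, Nat.add_sub_cancel, Function.leftInverse_invFun hsinj, exp_neg,
        exp_log (cast_ne _), mul_inv_cancel₀ (cast_ne _)]
    refine ⟨_, ((aut_sh hg).comp aut_sw).comp (aut_sh hk), ?_⟩
    rintro _ ⟨n, rfl⟩
    rw [← hs]
    refine T_ext (sh_maps _ ((fun z (hz : z ∈ T) => (⟨hz.2, hz.1⟩ : sw z ∈ T)) _
      (sh_maps _ (pt_mem n)))) (pt_mem _) ?_ ?_
    · show ((n + 1 : ℕ) : ℂ) * exp (k (1 * exp (g ((n + 1 : ℕ) : ℂ)))) = 1
      rw [one_mul, hg', hk']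
    · show 1 * exp (g ((n + 1 : ℕ) : ℂ)) = ((s n + 1 : ℕ) : ℂ)
      rw [one_mul, hg']

/-- **Negative answer to Q1.** The torus `X = (ℂ \ {0})²`, embedded in `ℂ⁴` by `x₀ x₁ = 1`,
`x₂ x₃ = 1`, is an affine algebraic manifold on which the regular automorphisms act transitively and
which contains a tame set. It is not algebraically flexible: every regular action of `(ℂ, +)` on it is
trivial. -/
theorem result : ∃ X : Set (Fin 4 → ℂ), X = {x | x 0 * x 1 = 1 ∧ x 2 * x 3 = 1} ∧
    IsAffineManifold X ∧ (∃ A, IsTame X A) ∧ RegularTransitive X ∧ ¬ IsFlexible X ∧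
    ∀ Φ, IsGaAction X Φ → ∀ x ∈ X, ∀ t, act Φ t x = x :=
  ⟨T, rfl, affine_T, ⟨_, tame_pt⟩, transitive_T, not_flexible_T,
    fun _ h _ hx => (velocity_zero h hx).1⟩

end Pool.Agent.Results.MP_acc6f5_ag.TorusNotFlexible
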